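import Pool.Agent.X14.QPair
import Pool.Agent.X14.QCubic

/-!
# A q-congruence with weight `[3k+1]` and factor `8^k`
-/

set_option autoImplicit false

namespace Pool.Agent.Results.MP_c82d9a_nt.AllOddN

open Finset Polynomial

noncomputable section

/-- The indeterminate `q`, as an element of `ℚ(q)`. -/
def q : RatFunc ℚ := RatFunc.X

/-- The q-integer `[N] = 1 + q + ⋯ + q^{N-1}`. -/
def qint (N : ℕ) : RatFunc ℚ := ∑ i ∈ range N, q ^ i

/-- The q-shifted factorial `(a; x)_k = (1 - a)(1 - a x) ⋯ (1 - a x^{k-1})`. -/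
def qp (a x : RatFunc ℚ) (k : ℕ) : RatFunc ℚ := ∏ j ∈ range k, (1 - a * x ^ j)

/-- `A ≡ B (mod Φ^2)`: for `A - B` in lowest terms, `Φ^2` divides the numerator and `Φ` does not
divide the denominator. -/
def CongSq (Φ : ℚ[X]) (A B : RatFunc ℚ) : Prop :=
  Φ ^ 2 ∣ (A - B).num ∧ ¬ Φ ∣ (A - B).denom

/-- The sum `L_{m,n}(q)`. -/
def L (m n : ℕ) : RatFunc ℚ :=
  ∑ j ∈ range (m * n), (-1) ^ j * qint (3 * j + 1) * (qp q (q ^ 2) j / qp q q j) ^ 3

/-- The rational number `b_j`; here `∏_{i<j} (1/2 + i) = (1/2)_j`. -/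
def bq (j : ℕ) : ℚ := 8 ^ j * (∏ i ∈ range j, (1 / 2 + (i : ℚ))) ^ 3 / (j.factorial : ℚ) ^ 3

/-- The right-hand side `R_{m,n}(q)`. -/
def R (m n : ℕ) : RatFunc ℚ :=
  (-1) ^ ((n - 1) / 2) * q ^ ((n - 1) ^ 2 / 4) * qint n *
    ((∑ j ∈ range m, (-1) ^ j * (3 * j + 1) * bq j : ℚ) : RatFunc ℚ)

open Pool.Agent.X14 QL QBlock

lemma q_def : q = QL.q := rfl

lemma qint_mul (N : ℕ) : qint N * (1 - q) = 1 - q ^ N := by
  unfold qint
  have := geom_sum_mul q N
  linear_combination -this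

lemma one_sub_q : 1 - q ≠ 0 := by
  have := one_sub_ne (j := 1) one_pos
  rwa [pow_one] at this

lemma qint_mem (P : ℚ[X]) (N : ℕ) : qint N ∈ Loc P :=
  (Loc P).sum_mem (fun _ _ => (Loc P).pow_mem (q_mem P) _)

/-- the ratio of the two products -/
def rt (k : ℕ) : RatFunc ℚ := ∏ j ∈ range k, (e (2 * (j : ℤ) + 1) / e ((j : ℤ) + 1))

/-- the terms -/
def term (k : ℕ) : RatFunc ℚ := (-1) ^ k * qint (3 * k + 1) * rt k ^ 3

lemma qp_odd (k : ℕ) : qp q (q ^ 2) k = ∏ j ∈ range k, e (2 * (j : ℤ) + 1) := by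
  unfold qp
  apply prod_congr rfl
  intro j _
  rw [show (2 * (j : ℤ) + 1) = ((2 * j + 1 : ℕ) : ℤ) by push_cast; ring, e_nat,
    q_def, ← pow_mul, pow_succ]
  ring

lemma qp_all (k : ℕ) : qp q q k = ∏ j ∈ range k, e ((j : ℤ) + 1) := by
  unfold qp
  apply prod_congr rfl
  intro j _
  rw [show ((j : ℤ) + 1) = ((j + 1 : ℕ) : ℤ) by push_cast; ring, e_nat,
    q_def, pow_succ]
  ring

lemma L_eq (m n : ℕ) : L m n = ∑ k ∈ range (m * n), term k := by
  unfold L term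
  apply sum_congr rfl
  intro k _
  congr 2
  rw [qp_odd, qp_all, rt, prod_div_distrib]

/-- the deformed weights -/
def W (n : ℕ) (M : ℤ) (k : ℕ) : RatFunc ℚ := Po 1 n M k / Pa 1 n M k

lemma W_zero {n μ m : ℕ} {k : ℕ} (hm : (2 * (μ : ℤ) + 1) * n = 2 * m + 1) (hk : m < k) :
    W n (2 * μ + 1) k = 0 := by
  unfold W Po
  rw [prod_eq_zero (mem_range.2 hk), zero_div]
  unfold rho
  rw [hm]
  have : e (((1 : ℕ) : ℤ) * (2 * (m : ℤ) + 1 - (2 * m + 1))) = 0 := by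
    unfold e; simp
  rw [this]; simp

lemma pp_eq {n μ m : ℕ} (hm : (2 * (μ : ℤ) + 1) * n = 2 * m + 1) (k : ℕ) (hk : k ≤ m) :
    QCubic.pp q (q ^ (2 * m + 1)) k = (-1) ^ k * rt k ^ 3 * W n (2 * μ + 1) k := by
  induction k with
  | zero => simp [QCubic.pp, rt, W, Po, Pa]
  | succ k ih =>
    have hq := q_ne
    have h1 : W n (2 * μ + 1) (k + 1) = W n (2 * μ + 1) k *
        (rho 1 n (2 * μ + 1) (2 * (k : ℤ) + 1) / rho 1 n (2 * μ + 1) ((k : ℤ) + 1)) := by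
      unfold W Po Pa
      rw [prod_range_succ, prod_range_succ, mul_div_mul_comm]
    have h2 : rt (k + 1) = rt k * (e (2 * (k : ℤ) + 1) / e ((k : ℤ) + 1)) := by
      unfold rt; rw [prod_range_succ]
    rw [QCubic.pp_succ, ih (by omega), h1, h2]
    have n1 : e (2 * (k : ℤ) + 1) ≠ 0 := e_ne (by omega)
    have n2 : e ((k : ℤ) + 1) ≠ 0 := e_ne (by omega)
    have n3 : e ((k : ℤ) + 1 + (2 * m + 1)) ≠ 0 := e_ne (by omega)
    have n4 : e ((k : ℤ) + 1 - (2 * m + 1)) ≠ 0 := e_ne (by omega)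
    have cq : ∀ i : ℕ, QL.q ^ i = QL.q ^ (i : ℤ) := fun i => (zpow_natCast _ _).symm
    have f1 : 1 - q ^ (2 * k + 1) = e (2 * (k : ℤ) + 1) := by
      rw [q_def, cq]; unfold e; push_cast; rfl
    have f2 : 1 - q ^ (2 * m + 1) * q ^ (2 * k + 1) = e (2 * (k : ℤ) + 1 + (2 * m + 1)) := by
      rw [q_def, cq, cq, ← zpow_add₀ hq]; unfold e; congr 2; push_cast; ring
    have f3 : q ^ (2 * m + 1) - q ^ (2 * k + 1) = QL.q ^ (2 * (m : ℤ) + 1) * e (2 * (k : ℤ) + 1 - (2 * m + 1)) := by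
      have : QL.q ^ (2 * (k : ℤ) + 1) = QL.q ^ (2 * (m : ℤ) + 1) * QL.q ^ (2 * (k : ℤ) + 1 - (2 * m + 1)) := by
        rw [← zpow_add₀ hq]; congr 1; ring
      rw [q_def, cq, cq]; unfold e; push_cast; rw [this]; ring
    have f4 : 1 - q ^ (k + 1) = e ((k : ℤ) + 1) := by
      rw [q_def, cq]; unfold e; push_cast; rfl
    have f5 : 1 - q ^ (2 * m + 1) * q ^ (k + 1) = e ((k : ℤ) + 1 + (2 * m + 1)) := by
      rw [q_def, cq, cq, ← zpow_add₀ hq]; unfold e; congr 2; push_cast; ring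
    have f6 : q ^ (2 * m + 1) - q ^ (k + 1) = QL.q ^ (2 * (m : ℤ) + 1) * e ((k : ℤ) + 1 - (2 * m + 1)) := by
      have : QL.q ^ ((k : ℤ) + 1) = QL.q ^ (2 * (m : ℤ) + 1) * QL.q ^ ((k : ℤ) + 1 - (2 * m + 1)) := by
        rw [← zpow_add₀ hq]; congr 1; ring
      rw [q_def, cq, cq]; unfold e; push_cast; rw [this]; ring
    rw [f1, f2, f3, f4, f5, f6]
    unfold rho
    rw [hm]
    push_cast
    simp only [one_mul]
    have hz : QL.q ^ (2 * (m : ℤ) + 1) ≠ 0 := zpow_ne_zero _ hq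
    generalize e (2 * (k : ℤ) + 1) = o at *
    generalize e ((k : ℤ) + 1) = v at *
    generalize e (2 * (k : ℤ) + 1 + (2 * m + 1)) = op at *
    generalize e (2 * (k : ℤ) + 1 - (2 * m + 1)) = om at *
    generalize e ((k : ℤ) + 1 + (2 * m + 1)) = vp at *
    generalize e ((k : ℤ) + 1 - (2 * m + 1)) = vm at *
    generalize QL.q ^ (2 * (m : ℤ) + 1) = z at *
    rw [pow_succ (-1 : RatFunc ℚ)]
    field_simp

/-- the exact evaluation -/
lemma exact (n μ h : ℕ) (hn : n = 2 * h + 1) :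
    ∑ k ∈ range (n * (μ + 1)), term k * W n (2 * μ + 1) k =
      (-1) ^ (n * μ + h) * q ^ ((n * μ + h) ^ 2) * qint ((2 * μ + 1) * n) := by
  set m := n * μ + h with hm
  have hmz : (2 * (μ : ℤ) + 1) * n = 2 * m + 1 := by rw [hm, hn]; push_cast; ring
  have hK : m < n * (μ + 1) := by rw [hm, Nat.mul_succ]; omega
  have hs := QCubic.cubic_sum (q := q) q_ne (fun k => one_sub_ne (by omega)) m
  have h1 := one_sub_q
  have h6 : ((2 * μ + 1) * n : ℕ) = 2 * m + 1 := by exact_mod_cast hmz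
  apply mul_right_cancel₀ h1
  rw [sum_mul, h6, mul_assoc _ _ (1 - q), qint_mul, ← hs]
  rw [← Finset.sum_subset (range_subset_range.2 (show m + 1 ≤ n * (μ + 1) by omega))]
  · apply sum_congr rfl
    intro k hk
    rw [pp_eq hmz k (by have := mem_range.1 hk; omega)]
    unfold term
    rw [← qint_mul]; ring
  · intro k _ hk
    rw [mem_range, not_lt] at hk
    rw [W_zero hmz (by omega)]; ring

/-- the rational weights -/
def w (μ J : ℕ) : ℚ := wo (2 * (μ : ℤ) + 1) J / wa (2 * (μ : ℤ) + 1) J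

lemma W_eqm {n h : ℕ} (hn : n = 2 * h + 1) (μ J : ℕ) (hJ : J ≤ μ) {l : ℕ} (hl : l ≤ h) :
    Eqm (cyclotomic n ℚ) 2 (W n (2 * μ + 1) (n * J + l)) (w μ J) := by
  unfold W w
  exact (Po_eqm hn one_pos (Nat.coprime_one_left n) _ J hl).div (by norm_num)
    (Pa_eqm (by omega) one_pos (Nat.coprime_one_left n) _ J (by omega)) (wa_ne (by omega))

lemma W_mem {n h : ℕ} (hn : n = 2 * h + 1) (μ J : ℕ) (hJ : J ≤ μ) {l : ℕ} (hl : l < n) :
    W n (2 * μ + 1) (n * J + l) ∈ Loc (cyclotomic n ℚ) := by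
  unfold W
  rw [div_eq_mul_inv]
  exact (Loc _).mul_mem (Po_mem (by omega) one_pos (Nat.coprime_one_left n) _ _)
    (((Pa_eqm (by omega) one_pos (Nat.coprime_one_left n) _ J hl).inv (wa_ne (by omega)) (by norm_num)).mem (rat_mem _ _))

lemma rt_mem {n h : ℕ} (hn : n = 2 * h + 1) (J : ℕ) {l : ℕ} (hl : l < n) :
    rt (n * J + l) ∈ Loc (cyclotomic n ℚ) ∧ (h < l → QO (cyclotomic n ℚ) 1 (rt (n * J + l))) := by
  have hn0 : 0 < n := by omega
  have := ratio_blocks (P := cyclotomic n ℚ) (n := n) (fun j => e (2 * (j : ℤ) + 1)) (fun j => e ((j : ℤ) + 1))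
    (t0 := h) (t1 := n - 1) (l := l) J (by omega) (by omega) (fun j => e_mem hn0 _)
    (fun i t ht htt => e_inv hn0 (all_not_dvd ht htt))
    (fun i => by
      have h1 := e_ratio (n := n) (s := 1) hn0 one_pos (2 * (i : ℤ) + 1) (d := (i : ℤ) + 1) (by omega)
      push_cast at h1
      rw [one_mul, one_mul] at h1
      rw [odd_eq hn, all_eq hn0]
      exact h1.mem (by
        have := rat_mem (cyclotomic n ℚ) ((2 * (i : ℚ) + 1) / ((i : ℚ) + 1)); push_cast at this; exact this)) (by omega)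
  refine ⟨this.1, fun hl' => this.2 hl' ?_⟩
  rw [odd_eq hn]
  exact e_QO hn0 (dvd_mul_left _ _)

lemma term_mem {n h : ℕ} (hn : n = 2 * h + 1) (J : ℕ) {l : ℕ} (hl : l < n) :
    term (n * J + l) ∈ Loc (cyclotomic n ℚ) ∧ (h < l → QO (cyclotomic n ℚ) 2 (term (n * J + l))) := by
  obtain ⟨h1, h2⟩ := rt_mem hn J hl
  have h3 : (-1 : RatFunc ℚ) ^ (n * J + l) * qint (3 * (n * J + l) + 1) ∈ Loc (cyclotomic n ℚ) :=
    (Loc _).mul_mem ((Loc _).pow_mem ((Loc _).neg_mem (Loc _).one_mem) _) (qint_mem _ _)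
  refine ⟨(Loc _).mul_mem h3 ((Loc _).pow_mem h1 3), fun hl' => ?_⟩
  have h4 := h2 hl'
  unfold term
  rw [show rt (n * J + l) ^ 3 = rt (n * J + l) * rt (n * J + l) * rt (n * J + l) by ring]
  exact QO.mul_left h3 (QO.mul_right (h4.mul h4) h1)

/-- the classical terms -/
def b (J : ℕ) : ℚ := (-1) ^ J * (3 * J + 1) * (∏ i ∈ range J, ((2 * (i : ℚ) + 1) / (i + 1))) ^ 3

lemma q_sub_one : QO (cyclotomic 1 ℚ) 1 (q - 1) := by
  have := (x_props (n := 1) (s := 1) one_pos one_pos).1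
  rwa [one_mul, pow_one] at this

lemma q_pow_one (N : ℕ) : Eqm (cyclotomic 1 ℚ) 1 (q ^ N) 1 := by
  have := Eqm.pow (P := cyclotomic 1 ℚ) (k := 1) (x := q) (y := 1) q_sub_one (Loc _).one_mem N
  rwa [one_pow] at this

lemma qint_one (N : ℕ) : Eqm (cyclotomic 1 ℚ) 1 (qint N) (N : RatFunc ℚ) := by
  unfold qint
  have := Eqm.sum (P := cyclotomic 1 ℚ) (k := 1) (s := range N) (f := fun i => q ^ i) (g := fun _ => 1) (fun i _ => q_pow_one i)
  simpa using this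

lemma rt_one (J : ℕ) : Eqm (cyclotomic 1 ℚ) 1 (rt J) ((∏ i ∈ range J, ((2 * (i : ℚ) + 1) / (i + 1)) : ℚ) : RatFunc ℚ) := by
  unfold rt
  rw [Rat.cast_prod]
  apply Eqm.prod
  · intro i _
    have := e_ratio (n := 1) (s := 1) one_pos one_pos (2 * (i : ℤ) + 1) (d := (i : ℤ) + 1) (by omega)
    push_cast at this ⊢
    rwa [mul_one, mul_one, one_mul, one_mul] at this
  · intro i _; exact rat_mem _ _

lemma term_one (J : ℕ) : Eqm (cyclotomic 1 ℚ) 1 (term J) (b J : ℚ) := by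
  unfold term b
  push_cast
  have h1 := (rt_one J).pow (rat_mem _ _) 3
  push_cast at h1
  have h2 := qint_one (3 * J + 1)
  push_cast at h2
  have h3 : (3 * (J : RatFunc ℚ) + 1) ∈ Loc (cyclotomic 1 ℚ) := by
    have := nat_mem (cyclotomic 1 ℚ) (3 * J + 1); push_cast at this; exact this
  have hm : (-1 : RatFunc ℚ) ^ J ∈ Loc (cyclotomic 1 ℚ) := (Loc _).pow_mem ((Loc _).neg_mem (Loc _).one_mem) _
  refine (Eqm.mul_left hm h2).mul h1 ((Loc _).mul_mem hm h3) ?_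
  have := rat_mem (cyclotomic 1 ℚ) ((∏ i ∈ range J, ((2 * (i : ℚ) + 1) / (i + 1))) ^ 3)
  push_cast at this
  exact this

lemma classical (μ : ℕ) : ∑ J ∈ range (μ + 1), w μ J * b J = (-1) ^ μ * (2 * μ + 1) := by
  have h0 := exact 1 μ 0 (by norm_num)
  rw [one_mul] at h0
  refine eval_one h0 (fun j _ => term_one j) (fun j hj => ?_) ?_
  · have := (W_eqm (n := 1) (h := 0) (by norm_num) μ j hj (l := 0) le_rfl).le (show 1 ≤ 2 by norm_num)
    rwa [one_mul, add_zero] at this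
  · rw [one_mul, add_zero, mul_one]
    have hm : (-1 : RatFunc ℚ) ^ μ ∈ Loc (cyclotomic 1 ℚ) := (Loc _).pow_mem ((Loc _).neg_mem (Loc _).one_mem) _
    have h1 := (Eqm.mul_left hm (q_pow_one (μ ^ 2)))
    have h2 := h1.mul (qint_one (2 * μ + 1)) (by rw [mul_one]; exact hm) (nat_mem _ _)
    rw [mul_one] at h2
    push_cast at h2 ⊢
    exact h2

/-- the right-hand side of the exact evaluation -/
lemma V_eqm {n h : ℕ} (hn : n = 2 * h + 1) (hn1 : 1 < n) (μ : ℕ) :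
    Eqm (cyclotomic n ℚ) 2 ((-1) ^ (n * μ + h) * q ^ ((n * μ + h) ^ 2) * qint ((2 * μ + 1) * n))
      ((-1) ^ h * q ^ (h ^ 2) * qint n * (((-1) ^ μ * (2 * μ + 1) : ℚ) : RatFunc ℚ)) := by
  set G : RatFunc ℚ := ∑ i ∈ range (2 * μ + 1), (q ^ n) ^ i with hG
  have hn0 : 0 < n := by omega
  have hx : Eqm (cyclotomic n ℚ) 1 (q ^ n) 1 := by
    have := (x_props (n := n) (s := 1) hn0 one_pos).1
    rwa [one_mul] at this
  have hpow : ∀ i : ℕ, Eqm (cyclotomic n ℚ) 1 ((q ^ n) ^ i) 1 := by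
    intro i
    have := hx.pow (Loc _).one_mem i
    rwa [one_pow] at this
  have hGe : Eqm (cyclotomic n ℚ) 1 G ((2 * μ + 1 : ℕ) : RatFunc ℚ) := by
    have := Eqm.sum (P := cyclotomic n ℚ) (k := 1) (s := range (2 * μ + 1)) (f := fun i => (q ^ n) ^ i) (g := fun _ => 1) (fun i _ => hpow i)
    simpa using this
  have h1 : qint ((2 * μ + 1) * n) = qint n * G := by
    apply mul_right_cancel₀ one_sub_q
    rw [qint_mul, mul_right_comm, qint_mul, hG]
    have := geom_sum_mul (q ^ n) (2 * μ + 1)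
    rw [mul_comm (2 * μ + 1) n, pow_mul]
    linear_combination this
  have hqn : QO (cyclotomic n ℚ) 1 (qint n) := by
    have h2 : qint n = (1 - q ^ n) * (1 - q)⁻¹ := by
      rw [← qint_mul, mul_assoc, mul_inv_cancel₀ one_sub_q, mul_one]
    rw [h2]
    have h3 := inv_one_sub_mem (N := n) (b := 1) (by
      intro hd; have := Nat.le_of_dvd one_pos hd; omega)
    rw [pow_one] at h3
    exact QO.mul_right (QO_one_sub dvd_rfl) h3
  have h2 : q ^ ((n * μ + h) ^ 2) = q ^ (h ^ 2) * (q ^ n) ^ (n * μ ^ 2 + 2 * μ * h) := by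
    rw [← pow_mul, ← pow_add]; congr 1; ring
  have h3 : (-1 : RatFunc ℚ) ^ (n * μ + h) = (-1) ^ h * (-1) ^ μ := by
    rw [pow_add, pow_mul, hn, pow_succ, pow_mul]
    norm_num
    ring
  have hm1 : ∀ i : ℕ, (-1 : RatFunc ℚ) ^ i ∈ Loc (cyclotomic n ℚ) := fun i => (Loc _).pow_mem ((Loc _).neg_mem (Loc _).one_mem) _
  have h4 : Eqm (cyclotomic n ℚ) 1 ((-1) ^ h * (-1) ^ μ * (q ^ (h ^ 2) * (q ^ n) ^ (n * μ ^ 2 + 2 * μ * h)) * G)
      ((-1) ^ h * (-1) ^ μ * (q ^ (h ^ 2) * 1) * ((2 * μ + 1 : ℕ) : RatFunc ℚ)) :=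
    (Eqm.mul_left ((Loc _).mul_mem (hm1 h) (hm1 μ)) (Eqm.mul_left ((Loc _).pow_mem (q_mem _) _) (hpow _))).mul hGe
      ((Loc _).mul_mem ((Loc _).mul_mem (hm1 h) (hm1 μ)) ((Loc _).mul_mem ((Loc _).pow_mem (q_mem _) _) (Loc _).one_mem)) (nat_mem _ _)
  have h5 := QO.mul hqn h4
  unfold Eqm
  rw [h1, h2, h3]
  convert h5 using 1
  push_cast
  ring

/-- the blocks -/
theorem blocks {n h : ℕ} (hn : n = 2 * h + 1) (hn1 : 1 < n) (J : ℕ) :
    Eqm (cyclotomic n ℚ) 2 (∑ l ∈ range n, term (n * J + l)) ((-1) ^ h * q ^ (h ^ 2) * qint n * (b J : ℚ)) := by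
  refine tri (w := w) (b := b) (v := fun μ => (-1) ^ μ * (2 * μ + 1)) (V := fun μ => (-1) ^ (n * μ + h) * q ^ ((n * μ + h) ^ 2) * qint ((2 * μ + 1) * n))
    (B := fun J => ∑ l ∈ range n, term (n * J + l)) ?_ classical (V_eqm hn hn1) ?_ J
  · intro μ
    have h1 := block_main (P := cyclotomic n ℚ) (k := 2) (n := n) (term := term) (W := W n (2 * μ + 1)) (h := h) (μ := μ) (w := w μ)
      (fun J l hl => (term_mem hn J hl).1) (fun J l hl hl' => (term_mem hn J hl').2 hl)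
      (fun J l hJ hl => W_mem hn μ J hJ hl) (fun J l hJ hl _ => W_eqm hn μ J hJ hl)
    rw [exact n μ h hn] at h1
    exact h1.symm
  · intro μ
    unfold w
    exact div_ne_zero (wo_ne (fun i hi => by omega) (by omega)) (wa_ne (by omega))

lemma b_eq (k : ℕ) : b k = (-1) ^ k * (3 * k + 1) * bq k := by
  unfold b bq
  congr 1
  have h : (∏ i ∈ range k, ((2 * (i : ℚ) + 1) / (i + 1))) = 2 ^ k * (∏ i ∈ range k, (1 / 2 + (i : ℚ))) / (k.factorial : ℚ) := by
    induction k with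
    | zero => simp
    | succ k ih =>
      rw [prod_range_succ, prod_range_succ, ih, Nat.factorial_succ]
      have h1 : (k.factorial : ℚ) ≠ 0 := by exact_mod_cast Nat.factorial_ne_zero k
      have h2 : ((k : ℚ) + 1) ≠ 0 := by positivity
      push_cast
      field_simp
      ring
  rw [h, div_pow, mul_pow, ← pow_mul, mul_comm k 3, pow_mul]
  norm_num

lemma congSq_of_QO {Φ : ℚ[X]} (hΦ : ¬ IsUnit Φ) {A B : RatFunc ℚ} (h : QO Φ 2 (A - B)) : CongSq Φ A B := by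
  obtain ⟨h1, h2⟩ := h.num_denom
  refine ⟨h1, fun hd => ?_⟩
  have h3 : IsCoprime (A - B).denom Φ := (IsCoprime.pow_right_iff (by norm_num : 0 < 2)).1 h2
  exact hΦ (h3.isUnit_of_dvd' hd dvd_rfl)

lemma not_unit_cyc (n : ℕ) (hn : 0 < n) : ¬ IsUnit (cyclotomic n ℚ) :=
  (cyclotomic.irreducible_rat hn).not_isUnit

/-- **Answer to Q1.** The congruence holds for every `m` and every odd `n > 1`; it fails for
`n = 1`, `m = 2`. -/
theorem result :
    (∀ m n : ℕ, 1 < n → Odd n → CongSq (cyclotomic n ℚ) (L m n) (R m n)) ∧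
    ¬ CongSq (cyclotomic 1 ℚ) (L 2 1) (R 2 1) := by
  constructor
  · intro m n hn1 hodd
    obtain ⟨h, hn⟩ := hodd
    apply congSq_of_QO (not_unit_cyc n (by omega))
    unfold R
    have e1 : (n - 1) / 2 = h := by omega
    have e2 : (n - 1) ^ 2 / 4 = h ^ 2 := by
      rw [hn, Nat.add_sub_cancel, mul_pow]; omega
    rw [e1, e2, L_eq, mul_comm m n, sum_range_blocks]
    have e3 : (∑ j ∈ range m, (-1) ^ j * (3 * j + 1) * bq j : ℚ) = ∑ J ∈ range m, b J := by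
      apply sum_congr rfl
      intro k _
      rw [b_eq]
    rw [e3]
    have h1 := Eqm.sum (P := cyclotomic n ℚ) (k := 2) (s := range m) (f := fun J => ∑ l ∈ range n, term (n * J + l))
      (g := fun J => (-1) ^ h * q ^ (h ^ 2) * qint n * (b J : ℚ)) (fun J _ => blocks hn hn1 J)
    rw [← mul_sum] at h1
    push_cast
    exact h1
  · rintro ⟨h1, -⟩
    have h2 := one_sub_q
    have h3 : L 2 1 - R 2 1 = al (3 - X - X ^ 2 - X ^ 3) := by
      have hc : (∑ j ∈ range 2, (-1) ^ j * (3 * j + 1) * bq j : ℚ) = -3 := by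
        unfold bq; norm_num [sum_range_succ, prod_range_succ, Nat.factorial]
      unfold R
      rw [hc]
      have c3 : al (3 : ℚ[X]) = 3 := map_ofNat al 3
      have hq : q = al X := q_eq
      simp only [map_sub, map_pow, c3]
      rw [← hq]
      unfold L qint qp
      norm_num [sum_range_succ, prod_range_succ]
      rw [div_self h2]
      ring
    rw [h3, RatFunc.num_algebraMap, cyclotomic_one] at h1
    obtain ⟨Q, hQ⟩ := h1
    have h8 := congrArg (fun r => (derivative r).eval 1) hQ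
    simp [pow_succ] at h8
    norm_num at h8

end

end Pool.Agent.Results.MP_c82d9a_nt.AllOddN
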